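import Pool.Agent.BRQ.LevG
import Pool.Agent.CGN.Hecke

/-!
# The cohomology of the locally symmetric spaces of `GL_n` over a number field: the statement
-/

noncomputable section

namespace Pool.Agent.BRF

open Matrix NumberField IsDedekindDomain

/-- Prime numbers. -/
abbrev Pr := Nat.Primes

/-- The finite places of the number field `F`. -/
def Pl (F : Type) [Field F] [NumberField F] : Type := HeightOneSpectrum (𝓞 F)

variable {F : Type} [Field F] [NumberField F] {n : ℕ}

/-- The prime ideal of a finite place. -/
def Pl.ideal (v : Pl F) : Ideal (𝓞 F) := HeightOneSpectrum.asIdeal v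

/-- The norm of the finite place `v`, the number of elements of its residue field. -/
def Pl.norm (v : Pl F) : ℕ := Ideal.absNorm v.ideal

/-- The finite place `v` lies above the rational prime `ℓ`. -/
def Above (ℓ : Pr) (v : Pl F) : Prop := ((ℓ : ℕ) : 𝓞 F) ∈ v.ideal

/-- The completion of `F` at the finite place `v`. -/
def Fv (v : Pl F) : Type := HeightOneSpectrum.adicCompletion F v

instance (v : Pl F) : Field (Fv v) :=
  (inferInstance : Field (HeightOneSpectrum.adicCompletion F v))

/-- The usual topology of the completion. -/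
instance (v : Pl F) : TopologicalSpace (Fv v) :=
  (inferInstance : TopologicalSpace (HeightOneSpectrum.adicCompletion F v))

/-- The ring of integers of the completion of `F` at `v`. -/
def Ov (v : Pl F) : Type := HeightOneSpectrum.adicCompletionIntegers F v

instance (v : Pl F) : CommRing (Ov v) :=
  (inferInstance : CommRing (HeightOneSpectrum.adicCompletionIntegers F v))

/-- The inclusion of the ring of integers in the completion. -/
def incl (v : Pl F) : Ov v →+* Fv v :=
  algebraMap (HeightOneSpectrum.adicCompletionIntegers F v) (HeightOneSpectrum.adicCompletion F v)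

/-- The embedding of `F` in its completion at `v`. -/
def emb (v : Pl F) : F →+* Fv v := algebraMap F (HeightOneSpectrum.adicCompletion F v)

/-- The group `GL_n(F)`. -/
def QG (F : Type) [Field F] (n : ℕ) : Type := GL (Fin n) F

instance : Group (QG F n) := (inferInstance : Group (GL (Fin n) F))

/-- The determinant. -/
def QG.det (γ : QG F n) : F := Matrix.det (Units.val γ : Matrix (Fin n) (Fin n) F)

/-- The group `GL_n(F_v)`. -/
def LG (n : ℕ) (v : Pl F) : Type := GL (Fin n) (Fv v)

instance (v : Pl F) : Group (LG n v) := (inferInstance : Group (GL (Fin n) (Fv v)))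

/-- The usual topology of `GL_n(F_v)`. -/
instance (v : Pl F) : TopologicalSpace (LG n v) :=
  (inferInstance : TopologicalSpace (GL (Fin n) (Fv v)))

/-- The subgroup `GL_n(O_v)` of `GL_n(F_v)`. -/
def GZ (n : ℕ) (v : Pl F) : Subgroup (LG n v) := (GeneralLinearGroup.map (n := Fin n) (incl v)).range

/-- The families of elements of the groups `GL_n(F_v)`. -/
def Fam (F : Type) [Field F] [NumberField F] (n : ℕ) : Type := ∀ v : Pl F, LG n v

instance : Group (Fam F n) := (inferInstance : Group (∀ v : Pl F, LG n v))

/-- Almost all members of the family `g` are in `GL_n(O_v)`. -/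
def AlmostInt (g : Fam F n) : Prop := {v : Pl F | g v ∉ GZ n v}.Finite

theorem almostInt_mul {a b : Fam F n} (ha : AlmostInt a) (hb : AlmostInt b) : AlmostInt (a * b) :=
  (BRQ.sysG F n).A.mul_mem' ha hb

theorem almostInt_one : AlmostInt (1 : Fam F n) := (BRQ.sysG F n).A.one_mem'

theorem almostInt_inv {a : Fam F n} (ha : AlmostInt a) : AlmostInt a⁻¹ :=
  (BRQ.sysG F n).A.inv_mem' ha

/-- The subgroup of these families. -/
def GA (F : Type) [Field F] [NumberField F] (n : ℕ) : Subgroup (Fam F n) where
  carrier := {g | AlmostInt g}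
  mul_mem' := almostInt_mul
  one_mem' := almostInt_one
  inv_mem' := almostInt_inv

/-- The group `GL_n(𝔸_f)`, `𝔸_f` the ring of finite adeles of `F` : the restricted product of the
groups `GL_n(F_v)` with respect to the subgroups `GL_n(O_v)`. -/
def AG (F : Type) [Field F] [NumberField F] (n : ℕ) : Type := GA F n

instance : Group (AG F n) := (inferInstance : Group (GA F n))

/-- The element of `GL_n(𝔸_f)` given by a family. -/
def AG.mk (g : Fam F n) (h : AlmostInt g) : AG F n := ⟨g, h⟩

/-- The component at `v` of an element of `GL_n(𝔸_f)`. -/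
def AG.comp (g : AG F n) (v : Pl F) : LG n v := g.1 v

/-- The image of `γ` in `GL_n(F_v)`. -/
def loc (v : Pl F) (γ : QG F n) : LG n v := GeneralLinearGroup.map (emb v) γ

theorem almostInt_loc (γ : QG F n) : AlmostInt (fun v => loc v γ) :=
  (CGQ.diag (𝒟 := BRQ.sysG F n) γ).2

/-- The image of `γ` under the diagonal embedding `GL_n(F) → GL_n(𝔸_f)`. -/
def diag (γ : QG F n) : AG F n := AG.mk (fun v => loc v γ) (almostInt_loc γ)

open Classical in
/-- The family with member `h` at `v` and `1` elsewhere. -/
def singleFam (v : Pl F) (h : LG n v) : Fam F n := Pi.mulSingle (M := LG n) v h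

theorem almostInt_single (v : Pl F) (h : LG n v) : AlmostInt (singleFam v h) :=
  (CGQ.single (𝒟 := BRQ.sysG F n) v h).2

/-- The element of `GL_n(𝔸_f)` with component `h` at `v` and `1` elsewhere. -/
def single (v : Pl F) (h : LG n v) : AG F n := AG.mk (singleFam v h) (almostInt_single v h)

/-- The real places of `F`. -/
def RPl (F : Type) [Field F] [NumberField F] : Type := {w : InfinitePlace F // w.IsReal}

/-- The embedding of `F` in `ℝ` given by a real place. -/
def RPl.emb (w : RPl F) : F →+* ℝ := InfinitePlace.embedding_of_isReal w.2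

/-- The group `{1,-1}^(real places)`, the set of the connected components of
`GL_n(F ⊗ ℝ) / A_∞° K_∞°`. -/
def Sg (F : Type) [Field F] [NumberField F] : Type := RPl F → ℤˣ

instance : Group (Sg F) := (inferInstance : Group (RPl F → ℤˣ))

open Classical in
/-- The action of `GL_n(F)` on this set: the signs of the determinant at the real places. -/
def sgn (γ : QG F n) : Sg F := fun w => if 0 < w.emb γ.det then 1 else -1

/-- The places above the rational prime `ℓ`. -/
def PlAbove (F : Type) [Field F] [NumberField F] (ℓ : Pr) : Type := {v : Pl F // Above ℓ v}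

/-- The group `GL_n(F ⊗ ℚ_ℓ)`, the product of the groups `GL_n(F_v)` over the places `v` above the
rational prime `ℓ`. -/
def GQl (F : Type) [Field F] [NumberField F] (n : ℕ) (ℓ : Pr) : Type := ∀ v : PlAbove F ℓ, LG n v.1

instance (ℓ : Pr) : Group (GQl F n ℓ) := (inferInstance : Group (∀ v : PlAbove F ℓ, LG n v.1))

/-- The product topology. -/
instance (ℓ : Pr) : TopologicalSpace (GQl F n ℓ) :=
  (inferInstance : TopologicalSpace (∀ v : PlAbove F ℓ, LG n v.1))

/-- The subgroups of this group. -/
def Sub (F : Type) [Field F] [NumberField F] (n : ℕ) (ℓ : Pr) : Type := Subgroup (GQl F n ℓ)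

/-- The element `g` is in the subgroup `K`. -/
def Sub.Mem {ℓ : Pr} (K : Sub F n ℓ) (g : GQl F n ℓ) : Prop :=
  g ∈ (show Subgroup (GQl F n ℓ) from K)

/-- The subgroup `K` is compact and open. -/
def Sub.IsCO {ℓ : Pr} (K : Sub F n ℓ) : Prop :=
  IsOpen {g : GQl F n ℓ | K.Mem g} ∧ IsCompact {g : GQl F n ℓ | K.Mem g}

/-- A level: compact open subgroups `K_ℓ` of `GL_n(F ⊗ ℚ_ℓ)` for all rational primes `ℓ`, with
`K_ℓ = GL_n(O_F ⊗ ℤ_ℓ)` for `ℓ` outside a finite set `S` of primes which contains the given
prime `p`. The group `K_f` is the product of the `K_ℓ`. -/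
structure Level (F : Type) [Field F] [NumberField F] (n : ℕ) where
  /-- the prime `p` -/
  p : Pr
  /-- the set `S` -/
  S : Finset Pr
  mem : p ∈ S
  /-- the local groups -/
  K : ∀ ℓ : Pr, Sub F n ℓ
  isCO : ∀ ℓ, (K ℓ).IsCO
  off : ∀ ℓ, ℓ ∉ S → ∀ g, (K ℓ).Mem g ↔ ∀ v : PlAbove F ℓ, g v ∈ GZ n v.1

/-- The same level in the notation of `Pool.Agent.BRQ`. -/
def Level.old (L : Level F n) : BRQ.LevG F n L.p L.S :=
  ⟨L.K, fun ℓ => (L.isCO ℓ).1, L.off, L.mem⟩

/-- The component at the rational prime `ℓ` of an element of `GL_n(𝔸_f)`. -/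
def AG.at (g : AG F n) (ℓ : Pr) : GQl F n ℓ := fun v => g.comp v.1

/-- The element `g` of `GL_n(𝔸_f)` is in `K_f` : all its components are in the groups `K_ℓ`. -/
def Level.InK (L : Level F n) (g : AG F n) : Prop := ∀ ℓ, (L.K ℓ).Mem (g.at ℓ)

/-- The group `K_f`. -/
def Level.Kf (L : Level F n) : Type := {g : AG F n // L.InK g}

/-- The underlying element of `GL_n(𝔸_f)`. -/
def Level.Kf.val {L : Level F n} (k : L.Kf) : AG F n := k.1

/-- The group `K_p`. -/
def Level.Kp (L : Level F n) : Type := (show Subgroup (GQl F n L.p) from L.K L.p)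

instance (L : Level F n) : Group L.Kp :=
  (inferInstance : Group (show Subgroup (GQl F n L.p) from L.K L.p))

/-- The inclusion of `K_p` in `GL_n(F ⊗ ℚ_p)`. -/
def Level.Kp.val {L : Level F n} (k : L.Kp) : GQl F n L.p := k.1

/-- The component at `p` of an element of `K_f`. -/
def Level.Kf.atp {L : Level F n} (k : L.Kf) : L.Kp := ⟨k.val.at L.p, k.2 L.p⟩

/-- The coefficients: a complete discrete valuation ring `O` whose residue field has the
characteristic `p` (in particular, the ring of integers of a finite extension of `ℚ_p`), and a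
finitely generated `O`-module `W` with an action `σ` of `K_p`. -/
structure Coef (L : Level F n) where
  /-- the ring -/
  O : Type
  [commRing : CommRing O]
  [isDomain : IsDomain O]
  [dvr : IsDiscreteValuationRing O]
  complete : IsAdicComplete (IsLocalRing.maximalIdeal O) O
  char : ((L.p : ℕ) : O) ∈ IsLocalRing.maximalIdeal O
  /-- the module -/
  W : Type
  [addCommGroup : AddCommGroup W]
  [module : Module O W]
  [finite : Module.Finite O W]
  /-- the action of `K_p` -/
  σ : Representation O L.Kp W

attribute [instance] Coef.commRing Coef.isDomain Coef.dvr Coef.addCommGroup Coef.module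
  Coef.finite

variable {L : Level F n}

/-- The action of `K_p` on `W`. -/
def Coef.act (V : Coef L) (k : L.Kp) (w : V.W) : V.W := V.σ k w

/-- The submodule `𝔪^m W` of `W`, `𝔪` the maximal ideal of `O`. -/
def Coef.sub (V : Coef L) (m : ℕ) : Submodule V.O V.W := IsLocalRing.maximalIdeal V.O ^ m • ⊤

/-- The action of `K_p` on `W` is continuous for the `𝔪`-adic topology of `W`. -/
def Coef.IsCont (V : Coef L) : Prop :=
  ∀ m : ℕ, ∃ U : Set (GQl F n L.p), IsOpen U ∧ 1 ∈ U ∧ ∀ k : L.Kp, k.val ∈ U →
    ∀ w : V.W, V.act k w - w ∈ V.sub m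

/-- The functions on `{1,-1}^(real places) × GL_n(𝔸_f)` with values in `W`. -/
def Fn (V : Coef L) : Type := Sg F × AG F n → V.W

instance (V : Coef L) : AddCommGroup (Fn V) := (inferInstance : AddCommGroup (Sg F × AG F n → V.W))

instance (V : Coef L) : Module V.O (Fn V) := (inferInstance : Module V.O (Sg F × AG F n → V.W))

/-- The condition `f (x, g k) = k_p⁻¹ f (x, g)` for all `k` in `K_f`. -/
def IsForm {V : Coef L} (f : Fn V) : Prop :=
  ∀ (y : Sg F × AG F n) (k : L.Kf), f (y.1, y.2 * k.val) = V.act (k.atp)⁻¹ (f y)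

theorem isForm_add {V : Coef L} {a b : Fn V} (ha : IsForm a) (hb : IsForm b) : IsForm (a + b) :=
  (CGQ.Forms (O := V.O) (W := V.W) L.old.Kf (L.old.rep V.σ)).add_mem' ha hb

theorem isForm_zero {V : Coef L} : IsForm (0 : Fn V) :=
  (CGQ.Forms (O := V.O) (W := V.W) L.old.Kf (L.old.rep V.σ)).zero_mem'

theorem isForm_smul {V : Coef L} (c : V.O) {a : Fn V} (ha : IsForm a) : IsForm (c • a) :=
  (CGQ.Forms (O := V.O) (W := V.W) L.old.Kf (L.old.rep V.σ)).smul_mem' c ha

/-- The submodule of the functions with this property. -/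
def FormsSub (V : Coef L) : Submodule V.O (Fn V) where
  carrier := {f | IsForm f}
  add_mem' := isForm_add
  zero_mem' := isForm_zero
  smul_mem' := isForm_smul

/-- The module of all functions `f` on `{1,-1}^(real places) × GL_n(𝔸_f)` with values in `W` such
that `f (x, g k) = k_p⁻¹ f (x, g)` for all `k` in `K_f`. -/
def Forms (V : Coef L) : Type := FormsSub V

instance (V : Coef L) : AddCommGroup (Forms V) := (inferInstance : AddCommGroup (FormsSub V))

instance (V : Coef L) : Module V.O (Forms V) := (inferInstance : Module V.O (FormsSub V))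

/-- The element of `Forms` given by a function. -/
def Forms.mk {V : Coef L} (f : Fn V) (h : IsForm f) : Forms V := ⟨f, h⟩

/-- The function underlying an element of `Forms`. -/
def Forms.fn {V : Coef L} (f : Forms V) : Fn V := f.1

/-- The translate `(x, g) ↦ f (γ⁻¹ x, γ⁻¹ g)` of a function. -/
def translate {V : Coef L} (γ : QG F n) (f : Fn V) : Fn V :=
  fun y => f (sgn γ⁻¹ * y.1, diag γ⁻¹ * y.2)

theorem translate_isForm {V : Coef L} (γ : QG F n) (f : Forms V) : IsForm (translate γ f.fn) :=
  (CGQ.formsRep (O := V.O) (W := V.W) L.old.Kf (L.old.rep V.σ) γ f).2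

/-- The translate of an element of `Forms`. -/
def actFun {V : Coef L} (γ : QG F n) (f : Forms V) : Forms V :=
  Forms.mk (translate γ f.fn) (translate_isForm γ f)

/-- The map `a` is `O`-linear. -/
def IsLin {V : Coef L} (a : Forms V → Forms V) : Prop := IsLinearMap V.O a

theorem actFun_isLin {V : Coef L} (γ : QG F n) : IsLin (actFun (V := V) γ) :=
  ⟨fun _ _ => rfl, fun _ _ => rfl⟩

/-- The endomorphisms of the `O`-module `Forms`. -/
def FEnd (V : Coef L) : Type := Module.End V.O (Forms V)

instance (V : Coef L) : Monoid (FEnd V) := (inferInstance : Monoid (Module.End V.O (Forms V)))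

/-- The endomorphism given by a linear map. -/
def FEnd.mk {V : Coef L} (a : Forms V → Forms V) (h : IsLin a) : FEnd V := IsLinearMap.mk' a h

/-- The translation by `γ` as a linear map. -/
def actLin (V : Coef L) (γ : QG F n) : FEnd V := FEnd.mk (actFun γ) (actFun_isLin γ)

theorem actLin_one (V : Coef L) : actLin V 1 = 1 :=
  (CGQ.formsRep (O := V.O) (W := V.W) L.old.Kf (L.old.rep V.σ)).map_one'

theorem actLin_mul (V : Coef L) (a b : QG F n) : actLin V (a * b) = actLin V a * actLin V b :=
  (CGQ.formsRep (O := V.O) (W := V.W) L.old.Kf (L.old.rep V.σ)).map_mul' a b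

/-- The action of `GL_n(F)` on `Forms`: `(γ f)(x, g) = f (γ⁻¹ x, γ⁻¹ g)`. -/
def formsHom (V : Coef L) : QG F n →* FEnd V where
  toFun := actLin V
  map_one' := actLin_one V
  map_mul' := actLin_mul V

/-- The action of `GL_n(F)` on `Forms` as a representation. -/
def formsRep (V : Coef L) : Representation V.O (QG F n) (Forms V) := formsHom V

/-- The `GL_n(F)`-module whose cohomology is the cohomology of `Y(K_f)` with coefficients in the
local system attached to `W`. -/
def coeff (V : Coef L) : Rep V.O (QG F n) := Rep.of (formsRep V)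

/-- The cohomology group `Hⁱ(Y(K_f), W)` : the group cohomology of the `GL_n(F)`-module
`coeff V`. -/
def H (V : Coef L) (i : ℕ) : Type := groupCohomology (coeff V) i

instance (V : Coef L) (i : ℕ) : AddCommGroup (H V i) :=
  (inferInstance : AddCommGroup (groupCohomology (coeff V) i))

instance (V : Coef L) (i : ℕ) : Module V.O (H V i) :=
  (inferInstance : Module V.O (groupCohomology (coeff V) i))

end Pool.Agent.BRF
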