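import Pool.Agent.BRF.Defs

/-!
# The Hecke algebra, its action on cohomology, and attached Galois representations
-/

noncomputable section

namespace Pool.Agent.BRF

open CategoryTheory NumberField IsDedekindDomain
open scoped IsMulCommutative

variable {F : Type} [Field F] [NumberField F] {n : ℕ} {L : Level F n}

/-- The element `π` of `F` is a uniformiser at `v`. -/
def IsUnif (v : Pl F) (π : F) : Prop :=
  HeightOneSpectrum.valuation F v π = WithZero.exp (-1 : ℤ)

theorem exists_unif (v : Pl F) : ∃ π : F, IsUnif v π :=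
  HeightOneSpectrum.valuation_exists_uniformizer F v

/-- A uniformiser of `F_v`, the image of an element of `F`. -/
def unif (v : Pl F) : Fv v := emb v (exists_unif v).choose

theorem unif_ne (v : Pl F) : unif v ≠ 0 :=
  (map_ne_zero (algebraMap F (CG2.Fv v))).2 (CG2.pi_ne v)

/-- The diagonal matrix over `F_v` with `k` entries `π` followed by entries `1`; `π` is a
uniformiser of `F_v`. -/
def dgm (n : ℕ) (v : Pl F) (k : ℕ) : Matrix (Fin n) (Fin n) (Fv v) :=
  Matrix.diagonal fun i => if (i : ℕ) < k then unif v else 1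

theorem dgm_det (v : Pl F) (k : ℕ) : (dgm n v k).det ≠ 0 := by
  rw [dgm, Matrix.det_diagonal, Finset.prod_ne_zero_iff]
  intro i _
  split_ifs
  · exact unif_ne v
  · exact one_ne_zero

/-- The same matrix as an element of `GL_n(F_v)`. -/
def dgk (n : ℕ) (v : Pl F) (k : ℕ) : LG n v :=
  Matrix.GeneralLinearGroup.mkOfDetNeZero (dgm n v k) (dgm_det v k)

/-- The elements `diag(π, …, π, 1, …, 1)` with `j + 1` entries `π`, for `some j`, and
`diag(π, …, π)⁻¹` for `none`. -/
def alpha (v : Pl F) (j : Option (Fin n)) : LG n v :=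
  Option.elim j (dgk n v n)⁻¹ fun i => dgk n v (i + 1)

/-- The cosets `h GL_n(O_v)`. -/
def Cos (n : ℕ) (v : Pl F) : Type := LG n v ⧸ GZ n v

/-- The coset `h GL_n(O_v)`. -/
def Cos.mk {v : Pl F} (h : LG n v) : Cos n v := (h : LG n v ⧸ GZ n v)

/-- An element of a coset. -/
def Cos.out {v : Pl F} (c : Cos n v) : LG n v := Quotient.out (show LG n v ⧸ GZ n v from c)

/-- The coset `c` is contained in the double coset `GL_n(O_v) α GL_n(O_v)`, `α = alpha v j`. -/
def Cos.In {v : Pl F} (j : Option (Fin n)) (c : Cos n v) : Prop :=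
  ∃ k ∈ GZ n v, c = Cos.mk (k * alpha v j)

theorem cosets_finite (v : Pl F) (j : Option (Fin n)) : {c : Cos n v | c.In j}.Finite :=
  CGN.cosets_finite (F := F) (n := n) v j

/-- The set of the cosets `h GL_n(O_v)` contained in the double coset
`GL_n(O_v) α GL_n(O_v)`, `α = alpha v j`. -/
def cosets (v : Pl F) (j : Option (Fin n)) : Finset (Cos n v) := (cosets_finite v j).toFinset

/-- The finite place `v` lies above one of the rational primes in `S`. -/
def Ab (S : Finset Pr) (v : Pl F) : Prop := ∃ ℓ ∈ S, Above ℓ v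

/-- The index set of the generators of the Hecke algebra: a finite place `v` which does not lie
above `S`, and `some j`, `0 ≤ j < n`, or `none`. -/
def Idx (L : Level F n) : Type := {v : Pl F // ¬ Ab L.S v} × Option (Fin n)

/-- The place of an index. -/
def Idx.pl (t : Idx L) : Pl F := t.1.1

/-- The number `j` of an index. -/
def Idx.j (t : Idx L) : Option (Fin n) := t.2

/-- The index with place `v` and number `j`. -/
def Idx.mk (v : Pl F) (hv : ¬ Ab L.S v) (j : Fin n) : Idx L := (⟨v, hv⟩, some j)

/-- The sum over the cosets in the definition of the Hecke operators. -/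
def heckeSum {V : Coef L} (t : Idx L) (f : Fn V) : Fn V :=
  fun y => ∑ c ∈ cosets t.pl t.j, f (y.1, y.2 * single t.pl c.out)

theorem heckeSum_isForm {V : Coef L} (t : Idx L) (f : Forms V) : IsForm (heckeSum t f.fn) :=
  (CGN.heckeLin (O := V.O) (W := V.W) L.old.Kf (L.old.rep V.σ) (L.old.unram V.σ) t f).2

/-- The Hecke operator attached to `t` on `Forms`. -/
def heckeFun {V : Coef L} (t : Idx L) (f : Forms V) : Forms V :=
  Forms.mk (heckeSum t f.fn) (heckeSum_isForm t f)

theorem heckeFun_isLin {V : Coef L} (t : Idx L) : IsLin (heckeFun (V := V) t) :=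
  ⟨(CGN.heckeLin (O := V.O) (W := V.W) L.old.Kf (L.old.rep V.σ) (L.old.unram V.σ) t).map_add',
    (CGN.heckeLin (O := V.O) (W := V.W) L.old.Kf (L.old.rep V.σ) (L.old.unram V.σ) t).map_smul'⟩

/-- The Hecke operator attached to `t` as an endomorphism of the `O`-module `Forms`. -/
def heckeLin (V : Coef L) (t : Idx L) : FEnd V := FEnd.mk (heckeFun t) (heckeFun_isLin t)

theorem heckeLin_equivariant (V : Coef L) (t : Idx L) (γ : QG F n) :
    heckeLin V t * actLin V γ = actLin V γ * heckeLin V t :=
  (CGN.heckeHom (O := V.O) (W := V.W) L.old.Kf (L.old.rep V.σ)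
    (L.old.unram V.σ) t).hom.isIntertwining' γ

/-- The Hecke operator attached to `t` as an endomorphism of the representation `coeff V`. -/
def heckeHom (V : Coef L) (t : Idx L) : coeff V ⟶ coeff V :=
  Rep.ofHom
    { toLinearMap := heckeLin V t
      isIntertwining' := heckeLin_equivariant V t }

/-- The algebra of endomorphisms of `Hⁱ(Y(K_f), W)`. -/
def EndH (V : Coef L) (i : ℕ) : Type := Module.End V.O (H V i)

instance (V : Coef L) (i : ℕ) : Ring (EndH V i) := (inferInstance : Ring (Module.End V.O (H V i)))

instance (V : Coef L) (i : ℕ) : Algebra V.O (EndH V i) :=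
  (inferInstance : Algebra V.O (Module.End V.O (H V i)))

/-- The value of an endomorphism of `Hⁱ(Y(K_f), W)`. -/
def EndH.app {V : Coef L} {i : ℕ} (a : EndH V i) (h : H V i) : H V i :=
  (show Module.End V.O (H V i) from a) h

/-- The Hecke operator attached to `t` on the cohomology group `Hⁱ(Y(K_f), W)`. -/
def heckeCoh (V : Coef L) (i : ℕ) (t : Idx L) : EndH V i :=
  ((groupCohomology.functor V.O (QG F n) i).map (heckeHom V t)).hom

/-- The Hecke algebra: the polynomial algebra over `O` on the Hecke operators `T_(v,1)`, …,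
`T_(v,n)`, `T_(v,n)⁻¹`, `v` not above `S`. -/
def HeckeAlg (V : Coef L) : Type := MvPolynomial (Idx L) V.O

instance (V : Coef L) : CommRing (HeckeAlg V) :=
  (inferInstance : CommRing (MvPolynomial (Idx L) V.O))

instance (V : Coef L) : Algebra V.O (HeckeAlg V) :=
  (inferInstance : Algebra V.O (MvPolynomial (Idx L) V.O))

/-- The generator of the Hecke algebra attached to `t`. -/
def HeckeAlg.T (V : Coef L) (t : Idx L) : HeckeAlg V := MvPolynomial.X (R := V.O) t

/-- The homomorphisms of algebras from the Hecke algebra to the algebra of endomorphisms of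
`Hⁱ(Y(K_f), W)`. -/
def ActHom (V : Coef L) (i : ℕ) : Type := HeckeAlg V →ₐ[V.O] EndH V i

/-- The value of such a homomorphism. -/
def ActHom.app {V : Coef L} {i : ℕ} (Φ : ActHom V i) (t : HeckeAlg V) : EndH V i :=
  (show HeckeAlg V →ₐ[V.O] EndH V i from Φ) t

/-- `Φ` maps the generators to the Hecke operators. There is a unique such homomorphism:
`exists_unique_action`. -/
def IsAction {V : Coef L} {i : ℕ} (Φ : ActHom V i) : Prop :=
  ∀ t : Idx L, Φ.app (HeckeAlg.T V t) = heckeCoh V i t

theorem heckeHom_comm (V : Coef L) (s t : Idx L) :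
    heckeHom V s ≫ heckeHom V t = heckeHom V t ≫ heckeHom V s :=
  Rep.hom_ext (Representation.IntertwiningMap.ext (LinearMap.ext fun f => (LinearMap.congr_fun
    (CGN.heckeLin_comm (O := V.O) (W := V.W) L.old.Kf (L.old.rep V.σ) (L.old.unram V.σ) s t)
      f).symm))

theorem heckeCoh_comm (V : Coef L) (i : ℕ) (s t : Idx L) :
    heckeCoh V i s * heckeCoh V i t = heckeCoh V i t * heckeCoh V i s := by
  have h := congrArg (fun a => ((groupCohomology.functor V.O (QG F n) i).map a).hom)
    (heckeHom_comm V s t)
  simp only [CategoryTheory.Functor.map_comp, ModuleCat.hom_comp] at h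
  exact h.symm

/-- The Hecke operators commute, so there is a unique homomorphism of algebras from the Hecke
algebra to the algebra of endomorphisms which maps the generators to the Hecke operators. -/
theorem exists_unique_action (V : Coef L) (i : ℕ) : ∃! Φ : ActHom V i, IsAction Φ := by
  let B : Subalgebra V.O (EndH V i) := Algebra.adjoin V.O (Set.range (heckeCoh V i))
  have hc : IsMulCommutative B := Algebra.isMulCommutative_adjoin V.O (by
    rintro _ ⟨s, rfl⟩ _ ⟨t, rfl⟩
    exact heckeCoh_comm V i s t)
  let g : Idx L → B := fun t => ⟨heckeCoh V i t, Algebra.subset_adjoin ⟨t, rfl⟩⟩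
  refine ⟨B.val.comp (MvPolynomial.aeval g : HeckeAlg V →ₐ[V.O] B), fun t =>
    congrArg Subtype.val (MvPolynomial.aeval_X g t), fun Φ h => ?_⟩
  exact MvPolynomial.algHom_ext fun t => (h t).trans
    (congrArg Subtype.val (MvPolynomial.aeval_X g t)).symm

/-- The localisation of `Hⁱ(Y(K_f), W)` at the prime ideal `m` of the Hecke algebra is not
zero. -/
def InSupport (V : Coef L) (i : ℕ) (m : Ideal (HeckeAlg V)) : Prop :=
  ∃ Φ : ActHom V i, IsAction Φ ∧ ∃ h : H V i, ∀ t : HeckeAlg V, t ∉ m → (Φ.app t).app h ≠ 0

/-- The residue ring of the ideal `m` of the Hecke algebra. -/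
def Res {V : Coef L} (m : Ideal (HeckeAlg V)) : Type := HeckeAlg V ⧸ m

instance {V : Coef L} (m : Ideal (HeckeAlg V)) : CommRing (Res m) :=
  (inferInstance : CommRing (HeckeAlg V ⧸ m))

/-- The residue class of an element. -/
def Res.mk {V : Coef L} (m : Ideal (HeckeAlg V)) (x : HeckeAlg V) : Res m := Ideal.Quotient.mk m x

/-- The image in `k` of the generator of the Hecke algebra attached to `t`, where `k` is a field
extension of the residue field of the maximal ideal `m` of the Hecke algebra. -/
def eig {V : Coef L} (m : Ideal (HeckeAlg V)) (k : Type) [Field k] [Algebra (Res m) k]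
    (t : Idx L) : k := algebraMap (Res m) k (Res.mk m (HeckeAlg.T V t))

/-- The images of the Hecke operators at `v` in `k` are those on a function of the determinant:
`T_(v,j) ↦ (number of cosets) χ^j`, with `χ` in an algebraic closure of `k`. -/
def IsDetType {V : Coef L} (m : Ideal (HeckeAlg V)) (k : Type) [Field k] [Algebra (Res m) k]
    (v : Pl F) (hv : ¬ Ab L.S v) : Prop :=
  ∃ χ : AlgebraicClosure k, ∀ j : Fin n, algebraMap k (AlgebraicClosure k)
    (eig m k (Idx.mk v hv j)) = ((cosets v (some j)).card : AlgebraicClosure k) * χ ^ ((j : ℕ) + 1)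

/-- An algebraic closure of `F`. -/
def Fbar (F : Type) [Field F] : Type := AlgebraicClosure F

instance (F : Type) [Field F] : Field (Fbar F) := (inferInstance : Field (AlgebraicClosure F))

instance (F : Type) [Field F] : Algebra F (Fbar F) :=
  (inferInstance : Algebra F (AlgebraicClosure F))

/-- The absolute Galois group of `F`. -/
def GalF (F : Type) [Field F] : Type := Fbar F ≃ₐ[F] Fbar F

instance (F : Type) [Field F] : Group (GalF F) := (inferInstance : Group (Fbar F ≃ₐ[F] Fbar F))

/-- The Krull topology. -/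
instance (F : Type) [Field F] : TopologicalSpace (GalF F) :=
  (inferInstance : TopologicalSpace (Fbar F ≃ₐ[F] Fbar F))

/-- The image of `x` under `σ`. -/
def GalF.app (σ : GalF F) (x : Fbar F) : Fbar F := (show Fbar F ≃ₐ[F] Fbar F from σ) x

/-- The ring of algebraic integers in `Fbar`. -/
def Zbar (F : Type) [Field F] : Type := integralClosure ℤ (Fbar F)

instance (F : Type) [Field F] : CommRing (Zbar F) :=
  (inferInstance : CommRing (integralClosure ℤ (Fbar F)))

/-- The inclusion of `Zbar` in `Fbar`. -/
def Zbar.val (x : Zbar F) : Fbar F := x.1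

/-- The prime ideal `Q` of the ring of algebraic integers lies over the place `v`. -/
def Over (v : Pl F) (Q : Ideal (Zbar F)) : Prop :=
  Q.IsPrime ∧ ∀ a ∈ v.ideal, ∀ x : Zbar F, x.val = algebraMap F (Fbar F) (a : F) → x ∈ Q

/-- `σ` acts trivially on the residue ring `Zbar / Q`. -/
def IsInertia (Q : Ideal (Zbar F)) (σ : GalF F) : Prop :=
  ∀ x y : Zbar F, y.val = σ.app x.val → y - x ∈ Q

/-- `σ` acts on the residue ring `Zbar / Q` by `x ↦ x ^ N v`: it is a Frobenius element at `Q`,
where `Q` lies over `v`. -/
def IsFrob (v : Pl F) (Q : Ideal (Zbar F)) (σ : GalF F) : Prop :=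
  ∀ x y : Zbar F, y.val = σ.app x.val → y - x ^ v.norm ∈ Q

/-- The `n`-dimensional representations over `k` of the absolute Galois group of `F`. -/
def GRep (F : Type) [Field F] (n : ℕ) (k : Type) [Field k] : Type := GalF F →* GL (Fin n) k

/-- The matrix of `ρ(σ)`. -/
def GRep.mat {k : Type} [Field k] (ρ : GRep F n k) (σ : GalF F) : Matrix (Fin n) (Fin n) k :=
  Units.val ((show GalF F →* GL (Fin n) k from ρ) σ)

/-- `σ` is in the kernel of `ρ`. -/
def GRep.Ker {k : Type} [Field k] (ρ : GRep F n k) (σ : GalF F) : Prop :=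
  (show GalF F →* GL (Fin n) k from ρ) σ = 1

/-- The characters of the absolute Galois group of `F` with values in `k`. -/
def GChar (F : Type) [Field F] (k : Type) [Field k] : Type := GalF F →* kˣ

/-- The value of the character `ω` at `σ`. -/
def GChar.val {k : Type} [Field k] (ω : GChar F k) (σ : GalF F) : k :=
  Units.val ((show GalF F →* kˣ from ω) σ)

/-- The space of vectors. -/
def Vec (n : ℕ) (k : Type) : Type := Fin n → k

instance (k : Type) [Field k] : AddCommGroup (Vec n k) :=
  (inferInstance : AddCommGroup (Fin n → k))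

instance (k : Type) [Field k] : Module k (Vec n k) := (inferInstance : Module k (Fin n → k))

/-- The action of `g` through `ρ` on the vectors over an extension `k'` of `k`. -/
def GRep.act {k : Type} [Field k] (ρ : GRep F n k) (k' : Type) [Field k'] [Algebra k k']
    (g : GalF F) (v : Vec n k') : Vec n k' := ((ρ.mat g).map (algebraMap k k')).mulVec v

/-- `ρ` does not factor through a proper parabolic subgroup of `GL_n`, after any finite extension
of the field `k`: over no finite extension is there a stable subspace other than `0` and the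
whole space. -/
def NonEisenstein {k : Type} [Field k] (ρ : GRep F n k) : Prop :=
  ∀ (k' : Type) [Field k'] [Algebra k k'], Module.Finite k k' →
    ∀ V : Submodule k' (Vec n k'), (∀ g : GalF F, ∀ v ∈ V, ρ.act k' g v ∈ V) → V = ⊥ ∨ V = ⊤

/-- The polynomial `X^n - w T₁ X^(n-1) + w² N T₂ X^(n-2) - … + (-1)^n w^n N^(n(n-1)/2) T_n`; here
`T_(j+1) = lam j`. -/
def pol {k : Type} [Field k] (lam : Fin n → k) (w N : k) : Polynomial k :=
  Polynomial.X ^ n + ∑ j : Fin n,
    Polynomial.C ((-w) ^ ((j : ℕ) + 1) * N ^ ((j : ℕ) * ((j : ℕ) + 1) / 2) * lam j) *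
      Polynomial.X ^ (n - ((j : ℕ) + 1))

/-- The representation `ρ` of the absolute Galois group of `F` is attached to the maximal
ideal `m` of the Hecke algebra: it is continuous, unramified outside `S`, and the characteristic
polynomial of (arithmetic, `e = 1`, or geometric, `e = -1`) Frobenius elements `σ` at `v` not
above `S` is given by the Hecke eigenvalues through the Satake isomorphism:
`∑ (-1)^j (N v)^(j(j-1)/2) T_(v,j) X^(n-j)`, up to a twist by a continuous character `ω`. -/
def Attached {V : Coef L} (m : Ideal (HeckeAlg V)) (k : Type) [Field k] [Algebra (Res m) k]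
    (ρ : GRep F n k) : Prop :=
  IsOpen {σ : GalF F | ρ.Ker σ} ∧
  ∃ (e : ℤˣ) (ω : GChar F k), IsOpen {σ : GalF F | ω.val σ = 1} ∧
    ∀ (v : Pl F) (hv : ¬ Ab L.S v) (Q : Ideal (Zbar F)), Over v Q →
      (∀ σ : GalF F, IsInertia Q σ → ρ.Ker σ) ∧
      (∀ σ : GalF F, IsFrob v Q σ →
        (ρ.mat (σ ^ (e : ℤ))).charpoly =
          pol (fun j => eig m k (Idx.mk v hv j)) (ω.val σ) ((v.norm : ℕ) : k))

end Pool.Agent.BRF
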