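import Pool.Agent.BRF.Transfer
import Pool.Agent.BR80.MainT

/-!
# The vanishing theorem below the rank for `GL_n` over number fields
-/

noncomputable section

namespace Pool.Agent.BRF

theorem thTw (F : Type) [Field F] [NumberField F] (n : ℕ) : BRQ.ThTw F n :=
  fun _ _ _ _ _ _ _ _ _ _ _ hq => BR80.twists_trivial _ hq

theorem main (F : Type) [Field F] [NumberField F] (n : ℕ) (L : Level F n)
    (V : Coef L) (hV : V.IsCont) (m : Ideal (HeckeAlg V)) [hmax : m.IsMaximal] (k : Type) [Field k]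
    [Algebra (Res m) k] (i : ℕ) (hi : i + 2 ≤ n) (hm : InSupport V i m) :
    (∃ T : Finset (Pl F), T.card ≤ i ∧
      ∀ (v : Pl F) (hv : ¬ Ab L.S v), v ∉ T → IsDetType m k v hv) ∧
    ∀ ρ : GRep F n k, Attached m k ρ → ¬ NonEisenstein ρ := by
  obtain ⟨h1, h2⟩ := main_of F n (thTw F n) L V hV m k i hm
  refine ⟨h1 hi, fun ρ h h' => ?_⟩
  have := h2 ρ h h'
  omega

end Pool.Agent.BRF
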