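import Pool.Agent.BRF.Hecke
import Pool.Agent.BRQ.Core

/-!
# Comparison of the two versions of the definitions
-/

noncomputable section

namespace Pool.Agent.BRF

open CategoryTheory NumberField

variable {F : Type} [Field F] [NumberField F] {n : ℕ} {L : Level F n}

/-- A common form of `InSupport`. -/
def GenSupp {G O : Type} [Group G] [CommRing O] (A : Rep O G) {I : Type} (f : I → (A ⟶ A)) (i : ℕ)
    (m : Ideal (MvPolynomial I O)) : Prop :=
  ∃ (h : groupCohomology A i) (Φ : MvPolynomial I O →ₐ[O] Module.End O (groupCohomology A i)),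
    (∀ t, Φ (MvPolynomial.X t) = ((groupCohomology.functor O G i).map (f t)).hom) ∧
    ∀ t, t ∉ m → Φ t h ≠ 0

theorem genSupp_of (V : Coef L) (i : ℕ) (m : Ideal (HeckeAlg V)) (h : InSupport V i m) :
    GenSupp (coeff V) (heckeHom V) i m := by
  obtain ⟨Φ, h1, x, hx⟩ := h
  exact ⟨x, Φ, h1, hx⟩

theorem of_genSupp {𝒟 : CGQ.Sys F}
    {O : Type} [CommRing O] {W : Type} [AddCommGroup W] [Module O W]
    (K : Subgroup 𝒟.A) {T : Set (CG2.Pl F)} {Φ : CGN.Chart n 𝒟 T}
    (τ : Representation O K W) (hU : CGN.UnramOff K τ Φ) (i : ℕ)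
    (m : Ideal (CGN.HeckeAlg n T O)) (h : GenSupp (CGQ.coeff K τ) (CGN.heckeHom K τ hU) i m) :
    CGN.InSupport K τ hU i m := by
  obtain ⟨x, Φ, h1, h2⟩ := h
  have h3 : Φ = CGN.hact K τ hU i := by
    apply MvPolynomial.algHom_ext
    intro t
    rw [h1, CGN.hact_X]
    rfl
  rw [h3] at h2
  exact ⟨x, h2⟩

theorem genSupp_eq (V : Coef L) (i : ℕ) (m : Ideal (HeckeAlg V)) :
    GenSupp (coeff V) (heckeHom V) i m =
      GenSupp (CGQ.coeff (O := V.O) (W := V.W) L.old.Kf (L.old.rep V.σ))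
        (CGN.heckeHom (O := V.O) (W := V.W) L.old.Kf (L.old.rep V.σ) (L.old.unram V.σ)) i m :=
  rfl

theorem inSupport_old (V : Coef L) (i : ℕ) (m : Ideal (HeckeAlg V)) (h : InSupport V i m) :
    CGN.InSupport (O := V.O) (W := V.W) L.old.Kf (L.old.rep V.σ) (L.old.unram V.σ) i m := by
  apply of_genSupp
  rw [← genSupp_eq]
  exact genSupp_of V i m h

theorem cont_old (V : Coef L) (h : V.IsCont) :
    BRQ.IsContG (O := V.O) (W := V.W) L.old V.σ := h

/-- The algebra structure for the old form of the Hecke algebra. -/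
@[reducible] def algOld {V : Coef L} (m : Ideal (HeckeAlg V)) (k : Type) [Field k]
    [inst : Algebra (Res m) k] :
    Algebra (CGN.HeckeAlg n (CG2.ab F L.S) V.O ⧸
      (m : Ideal (CGN.HeckeAlg n (CG2.ab F L.S) V.O))) k := inst

theorem nonEisenstein_old {k : Type} [Field k] (ρ : GRep F n k) (h : NonEisenstein ρ) :
    CGN.NonEis (F := F) (n := n) (k := k) ρ := h

theorem pol_old {n : ℕ} {k : Type} [Field k] (lam : Option (Fin n) → k) (w N : k) :
    pol (fun j => lam (some j)) w N = CGN.heckePol lam w N := by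
  rw [pol, CGN.heckePol, Finset.sum_range_succ', add_comm]
  congr 1
  · rw [← Fin.sum_univ_eq_sum_range (fun j => Polynomial.C ((-1) ^ (j + 1) * w ^ (j + 1) *
      N ^ ((j + 1) * (j + 1 - 1) / 2) * CGN.lk lam (j + 1)) * Polynomial.X ^ (n - (j + 1))) n]
    refine Finset.sum_congr rfl fun j _ => ?_
    rw [CGN.lk_succ, neg_pow w, Nat.add_sub_cancel, mul_comm (j : ℕ) ((j : ℕ) + 1)]
  · simp [CGN.lk_zero]

theorem attached_old {V : Coef L} (m : Ideal (HeckeAlg V)) (k : Type) [Field k]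
    [Algebra (Res m) k] (ρ : GRep F n k) (h : Attached m k ρ) :
    @CGN.AttachedN F _ _ n (CG2.ab F L.S) V.O _ m k _ (algOld m k) ρ := by
  obtain ⟨h1, e, ω, h2, h3⟩ := h
  refine ⟨?_, e, ω, ?_, ?_⟩
  · have h4 : ((MonoidHom.ker (G := CG2.GalF F) (M := GL (Fin n) k) ρ :
        Subgroup (CG2.GalF F)) : Set (CG2.GalF F)) = {σ : GalF F | ρ.Ker σ} := rfl
    rw [h4]
    exact h1
  · have h4 : ((MonoidHom.ker (G := CG2.GalF F) (M := kˣ) ω : Subgroup (CG2.GalF F)) :
        Set (CG2.GalF F)) = {σ : GalF F | ω.val σ = 1} := by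
      ext σ
      exact (Units.val_eq_one (a := (show GalF F →* kˣ from ω) σ)).symm
    rw [h4]
    exact h2
  · intro v hv Q hQ
    refine ⟨(h3 v hv Q hQ).1, fun σ hσ => ?_⟩
    rw [← pol_old]
    exact (h3 v hv Q hQ).2 σ hσ

theorem isDetType_of {V : Coef L} (m : Ideal (HeckeAlg V)) (k : Type) [Field k]
    [Algebra (Res m) k] (v : Pl F) (hv : ¬ Ab L.S v)
    (h : @BRQ.Eig F _ _ n (CG2.ab F L.S) k _
      (fun t => @CGN.eig F _ _ n (CG2.ab F L.S) V.O _ m k _ (algOld m k) t) ⟨v, hv⟩) :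
    IsDetType m k v hv := h

/-- The theorem, from Theorem T. -/
theorem main_of (F : Type) [Field F] [NumberField F] (n : ℕ) (hT : BRQ.ThTw F n) (L : Level F n)
    (V : Coef L) (hV : V.IsCont) (m : Ideal (HeckeAlg V)) [hmax : m.IsMaximal] (k : Type) [Field k]
    [Algebra (Res m) k] (i : ℕ) (hm : InSupport V i m) :
    (i + 2 ≤ n → ∃ T : Finset (Pl F), T.card ≤ i ∧
      ∀ (v : Pl F) (hv : ¬ Ab L.S v), v ∉ T → IsDetType m k v hv) ∧
    (∀ ρ : GRep F n k, Attached m k ρ → NonEisenstein ρ → n ≤ i + 1) := by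
  have hp : Fact (L.p : ℕ).Prime := ⟨L.p.2⟩
  have hSf : (CG2.ab F L.S).Finite := by
    have : CG2.ab F L.S = ⋃ ℓ ∈ L.S, {v : CG2.Pl F | CG2.Above (ℓ : ℕ) v} := by
      ext v; simp [CG2.ab]
    rw [this]
    exact Set.Finite.biUnion L.S.finite_toSet fun ℓ _ => CG2.LevelOC_fin ℓ
  have := V.complete
  have hold := inSupport_old V i m hm
  refine ⟨fun hi => ?_, fun ρ hatt hne => ?_⟩
  · obtain ⟨T, hc, hT'⟩ := @BRQ.core_triv F _ _ n hT (CG2.ab F L.S) V.O _ _ _ _
      (L.p : ℕ) hp V.char V.W _ _ _ L.old.Kf L.old.op (L.old.rep V.σ) (L.old.unram V.σ)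
      (L.old.cont V.σ (cont_old V hV)) m hmax.isPrime k _ (algOld m k) i hi
      (fun hd => CGN.not_inSupport_of_dead hd hold)
    exact ⟨T, hc, fun v hv hvT => isDetType_of m k v hv (hT' ⟨v, hv⟩ hvT)⟩
  · by_contra hi
    exact CGN.not_inSupport_of_dead (@BRQ.core F _ _ n hT (CG2.ab F L.S) hSf V.O _ _ _ _
      (L.p : ℕ) hp V.char V.W _ _ _ L.old.Kf L.old.op (L.old.rep V.σ) (L.old.unram V.σ)
      (L.old.cont V.σ (cont_old V hV)) m hmax k _ (algOld m k) ρ (attached_old m k ρ hatt)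
      (nonEisenstein_old ρ hne) i (by omega)) hold

end Pool.Agent.BRF
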