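import Pool.Agent.BRF.Main
import Pool.Agent.KGn.Van

/-!
# The vanishing theorem above the virtual cohomological dimension for `GL_n` over number fields
-/

noncomputable section

namespace Pool.Agent.BRF

open NumberField
open Pool.Agent.CG2 (LevelOC_fin LevelOC_pr LevelOC_pr_spec)

variable {F : Type} [Field F] [NumberField F] {n : ℕ}

/-- The groups `GL_n(F) ∩ g K_f g⁻¹` are torsion free, for all `g` in `GL_n(𝔸_f)`.
This holds when `K_f` is neat. -/
def Level.TorsionFree (L : Level F n) : Prop :=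
  ∀ (g : AG F n) (γ : QG F n) (k : ℕ), 0 < k → L.InK (g⁻¹ * diag γ * g) → γ ^ k = 1 → γ = 1

/-- The number of real places of `F`. -/
def r1 (F : Type) [Field F] [NumberField F] : ℤ := InfinitePlace.nrRealPlaces F

/-- The number of complex places of `F`. -/
def r2 (F : Type) [Field F] [NumberField F] : ℤ := InfinitePlace.nrComplexPlaces F

/-- The real dimension of `GL_n(F ⊗ ℝ) = GL_n(ℝ)^r1 × GL_n(ℂ)^r2`, minus that of
`A_∞ K_∞ = ℝ_{>0} × SO(n)^r1 × U(n)^r2`: the dimension of `Y(K_f)`. -/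
def dY (F : Type) [Field F] [NumberField F] (n : ℤ) : ℤ :=
  n ^ 2 * (r1 F + 2 * r2 F) - (1 + r1 F * (n * (n - 1) / 2) + r2 F * n ^ 2)

/-- The difference of the ranks of `GL_n(F ⊗ ℝ)` and of `A_∞ K_∞`. -/
def ell0 (F : Type) [Field F] [NumberField F] (n : ℤ) : ℤ :=
  n * (r1 F + 2 * r2 F) - (1 + r1 F * (n / 2) + r2 F * n)

/-- `q₀ = (d_Y - ℓ₀) / 2`. -/
def q0 (F : Type) [Field F] [NumberField F] (n : ℤ) : ℤ := (dY F n - ell0 F n) / 2

theorem torsionFree_old (L : Level F n) (h : L.TorsionFree) : CGQ.TorsionFree L.old.Kf := h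

theorem Level.oc (L : Level F n) : CGQ.OC (𝒟 := BRQ.sysG F n) L.old.Kf where
  op := L.old.op
  cp := by
    classical
    refine ⟨fun v => (fun g : GQl F n (LevelOC_pr v) => g ⟨v, LevelOC_pr_spec v⟩) ''
      {g | (L.K (LevelOC_pr v)).Mem g}, fun v => (L.isCO _).2.image (continuous_apply _), ?_, ?_⟩
    · have hfin : {v : CG2.Pl F | LevelOC_pr v ∈ L.S}.Finite := by
        refine (Set.Finite.biUnion (t := fun ℓ : Pr => {v : CG2.Pl F | CG2.Above (ℓ : ℕ) v})
          L.S.finite_toSet fun ℓ _ => LevelOC_fin ℓ).subset ?_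
        intro v hv
        simp only [Set.mem_iUnion, exists_prop]
        exact ⟨LevelOC_pr v, hv, LevelOC_pr_spec v⟩
      refine hfin.subset ?_
      intro v hv
      by_contra hS
      apply hv
      rintro _ ⟨g, hg, rfl⟩
      exact (L.off _ hS g).1 hg ⟨v, LevelOC_pr_spec v⟩
    · intro k hk v
      exact ⟨fun w => k.1 w.1, hk (LevelOC_pr v), rfl⟩

theorem dY_dimV (F : Type) [Field F] [NumberField F] (n : ℕ) :
    dY F n = (KGn.dimV F n : ℤ) - 1 := by
  have h1 : (n : ℤ) * (n - 1) / 2 + n * (n + 1) / 2 = (n : ℤ) ^ 2 := by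
    obtain ⟨a, ha | ha⟩ := Int.even_or_odd' (n : ℤ)
    · rw [ha, show 2 * a * (2 * a - 1) = 2 * (a * (2 * a - 1)) by ring,
        show 2 * a * (2 * a + 1) = 2 * (a * (2 * a + 1)) by ring,
        Int.mul_ediv_cancel_left _ two_ne_zero, Int.mul_ediv_cancel_left _ two_ne_zero]
      ring
    · rw [ha, show (2 * a + 1) * (2 * a + 1 - 1) = 2 * ((2 * a + 1) * a) by ring,
        show (2 * a + 1) * (2 * a + 1 + 1) = 2 * ((2 * a + 1) * (a + 1)) by ring,
        Int.mul_ediv_cancel_left _ two_ne_zero, Int.mul_ediv_cancel_left _ two_ne_zero]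
      ring
  have h2 : (KGn.dimV F n : ℤ) = r1 F * (n * (n + 1) / 2) + r2 F * n ^ 2 := by
    simp [KGn.dimV, r1, r2]
  rw [h2, dY]
  linear_combination -(r1 F) * h1

/-- `q₀ = r1 ⌊n² / 4⌋ + r2 n (n - 1) / 2`. -/
theorem q0_eq (F : Type) [Field F] [NumberField F] (n : ℤ) :
    dY F n - ell0 F n = 2 * (r1 F * (n ^ 2 / 4) + r2 F * (n * (n - 1) / 2)) ∧
      q0 F n = r1 F * (n ^ 2 / 4) + r2 F * (n * (n - 1) / 2) := by
  have h1 : dY F n - ell0 F n = 2 * (r1 F * (n ^ 2 / 4) + r2 F * (n * (n - 1) / 2)) := by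
    unfold dY ell0
    obtain ⟨a, ha | ha⟩ := Int.even_or_odd' n
    · have e1 : n * (n - 1) / 2 = a * (2 * a - 1) := by
        rw [ha, show 2 * a * (2 * a - 1) = 2 * (a * (2 * a - 1)) by ring,
          Int.mul_ediv_cancel_left _ two_ne_zero]
      have e2 : n ^ 2 / 4 = a ^ 2 := by
        rw [ha, show (2 * a) ^ 2 = 4 * a ^ 2 by ring, Int.mul_ediv_cancel_left _ four_ne_zero]
      have e3 : n / 2 = a := by omega
      rw [e1, e2, e3, ha]
      ring
    · have e1 : n * (n - 1) / 2 = (2 * a + 1) * a := by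
        rw [ha, show (2 * a + 1) * (2 * a + 1 - 1) = 2 * ((2 * a + 1) * a) by ring,
          Int.mul_ediv_cancel_left _ two_ne_zero]
      have e2 : n ^ 2 / 4 = a ^ 2 + a := by
        have : n ^ 2 = 4 * (a ^ 2 + a) + 1 := by rw [ha]; ring
        omega
      have e3 : n / 2 = a := by omega
      rw [e1, e2, e3, ha]
      ring
  refine ⟨h1, ?_⟩
  rw [q0, h1, Int.mul_ediv_cancel_left _ two_ne_zero]

/-- The case `GL₃` over `ℚ`. -/
theorem GL3Q (h : Module.finrank ℚ F = 1) :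
    dY F 3 = 5 ∧ q0 F 3 = 2 ∧ ell0 F 3 = 1 := by
  have h1 := InfinitePlace.card_add_two_mul_card_eq_rank F
  rw [h] at h1
  have h2 : r1 F = 1 := by unfold r1; omega
  have h3 : r2 F = 0 := by unfold r2; omega
  rw [(q0_eq F 3).2, dY, ell0, h2, h3]
  norm_num

/-- Vanishing above the virtual cohomological dimension. -/
theorem upper (hn : 0 < n) (L : Level F n) (hTF : L.TorsionFree) (V : Coef L)
    (m : Ideal (HeckeAlg V)) [hmax : m.IsMaximal] (i : ℕ) (hm : InSupport V i m) :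
    (i : ℤ) ≤ dY F n - (n - 1) := by
  by_contra hi
  rw [dY_dimV] at hi
  have hs : Subsingleton (groupCohomology
      (CGQ.coeff (𝒟 := BRQ.sysG F n) (O := V.O) (W := V.W) L.old.Kf (L.old.rep V.σ)) i) :=
    KGn.van_upper hn L.old.Kf L.oc (torsionFree_old L hTF) V.O V.W (L.old.rep V.σ) i (by omega)
  have hs' : Subsingleton (H V i) := hs
  obtain ⟨Φ, -, x, hx⟩ := hm
  have h1 : (1 : HeckeAlg V) ∉ m := (Ideal.ne_top_iff_one m).1 hmax.ne_top
  exact hx 1 h1 (Subsingleton.elim _ _)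

theorem main2 (F : Type) [Field F] [NumberField F] (n : ℕ) (hn : 0 < n) (L : Level F n)
    (V : Coef L) (hV : V.IsCont) (m : Ideal (HeckeAlg V)) [hmax : m.IsMaximal] (k : Type) [Field k]
    [Algebra (Res m) k] (i : ℕ) (hm : InSupport V i m) :
    (i + 2 ≤ n → ∃ T : Finset (Pl F), T.card ≤ i ∧
      ∀ (v : Pl F) (hv : ¬ Ab L.S v), v ∉ T → IsDetType m k v hv) ∧
    (L.TorsionFree → (i : ℤ) ≤ dY F n - (n - 1)) ∧
    ∀ ρ : GRep F n k, Attached m k ρ → NonEisenstein ρ →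
      (n : ℤ) - 1 ≤ i ∧
      (L.TorsionFree → (q0 F n ≤ n - 1 ∨ n = 3 ∧ Module.finrank ℚ F = 1) →
        q0 F n ≤ i ∧ (i : ℤ) ≤ q0 F n + ell0 F n) := by
  obtain ⟨h1, h2⟩ := main_of F n (thTw F n) L V hV m k i hm
  refine ⟨h1, fun hTF => upper hn L hTF V m i hm, fun ρ ha hne => ?_⟩
  have h3 : (n : ℤ) - 1 ≤ i := by
    have := h2 ρ ha hne
    omega
  refine ⟨h3, fun hTF hq => ?_⟩
  have h4 := upper hn L hTF V m i hm
  obtain ⟨h5, h6⟩ := q0_eq F n
  have h7 : q0 F n ≤ n - 1 := by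
    rcases hq with hq | ⟨rfl, hQ⟩
    · exact hq
    · have := (GL3Q (F := F) hQ).2.1
      have h8 : q0 F (3 : ℕ) = q0 F 3 := rfl
      rw [h8, this]
      norm_num
  rw [← h6] at h5
  constructor
  · omega
  · omega

end Pool.Agent.BRF
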